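import Pool.Agent.MDG.Stmts

/-!
Squad MDG (MP_3faef8_co), row SIZ (helper34): low nodes are big.
-/

set_option autoImplicit false

open Finset Pool.Agent.HEC

namespace Pool.Agent.MDG.H34

lemma mem_nde {V : Type} [Fintype V] (p : V → V) (w v : V) : v ∈ nde p w ↔ p v = w := by
  classical
  unfold nde
  simp

lemma cnt_le_of_imp {α : Type} [Fintype α] {a b : α → Prop} (h : ∀ x, a x → b x) :
    cnt a ≤ cnt b := by
  classical
  unfold cnt
  apply Finset.card_le_card
  intro x hx
  simp only [mem_filter, mem_univ, true_and] at hx ⊢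
  exact h x hx

lemma cnt_or {α : Type} [Fintype α] (a b : α → Prop) :
    cnt (fun x => a x ∨ b x) ≤ cnt a + cnt b := by
  classical
  unfold cnt
  refine le_trans (Finset.card_le_card ?_) (Finset.card_union_le _ _)
  intro x hx
  simp only [mem_filter, mem_univ, true_and, mem_union] at hx ⊢
  exact hx

/-- counting through a map of pairs -/
lemma cnt_proj {α β : Type} [Fintype α] [Fintype β] (f : α → β) (a : α → Prop) (b : β → Prop)
    (h : ∀ y, b y → ∃ x, a x ∧ f x = y) : cnt b ≤ cnt a := by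
  classical
  unfold cnt
  refine le_trans (Finset.card_le_card ?_) (Finset.card_image_le (f := f))
  intro y hy
  simp only [mem_filter, mem_univ, true_and] at hy
  obtain ⟨x, hx, rfl⟩ := h y hy
  simp only [mem_image, mem_filter, mem_univ, true_and]
  exact ⟨x, hx, rfl⟩

lemma dg_eq_cut {V : Type} [Fintype V] (G : SimpleGraph V) (v : V) : dg G v = cut G {v} := by
  apply le_antisymm
  · unfold dg cut
    refine cnt_proj (fun q : V × V => q.2) _ _ ?_
    intro u hu
    refine ⟨(v, u), ⟨Finset.mem_singleton_self v, ?_, hu⟩, rfl⟩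
    rw [Finset.mem_singleton]
    exact fun h => G.ne_of_adj hu h.symm
  · unfold dg cut cnt
    classical
    refine Finset.card_le_card_of_injOn (fun q : V × V => q.2) ?_ ?_
    · intro q hq
      simp only [coe_filter, mem_univ, true_and, Set.mem_ofPred_eq, mem_singleton] at hq ⊢
      rw [← hq.1]; exact hq.2.2
    · intro q hq q' hq' h
      simp only [coe_filter, mem_univ, true_and, Set.mem_ofPred_eq, mem_singleton] at hq hq'
      exact Prod.ext (hq.1.trans hq'.1.symm) h

theorem siz (h1 : Cp5Stmt) : SizStmt := by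
  intro V _ G N p w hdeg hpw hlow
  have hH : ∀ v, 5000000 ≤ dg N.H v := by
    intro v
    have h2 := (h1 V G N {v}).2.2.2.2.2
    rw [← dg_eq_cut, ← dg_eq_cut] at h2
    have := hdeg v
    omega
  have hG : cut G (nde p w) ≤ 2 * cut N.H (nde p w) := (h1 V G N (nde p w)).2.2.2.2.2
  -- neighbours inside the node
  have hout : ∀ v, p v = w → cnt (fun u => N.H.Adj v u ∧ p u ≠ w) ≤ cut N.H (nde p w) := by
    intro v hv
    unfold cut
    refine cnt_proj (fun q : V × V => q.2) _ _ ?_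
    rintro u ⟨hu, hpu⟩
    exact ⟨(v, u), ⟨(mem_nde p w v).mpr hv, fun h => hpu ((mem_nde p w u).mp h), hu⟩, rfl⟩
  have hbd : cnt (fun u => p u = w ∧ ∃ u', G.Adj u u' ∧ p u' ≠ w) ≤ cut G (nde p w) := by
    unfold cut
    refine cnt_proj (fun q : V × V => q.1) _ _ ?_
    rintro u ⟨hu, u', hadj, hu'⟩
    exact ⟨(u, u'), ⟨(mem_nde p w u).mpr hu, fun h => hu' ((mem_nde p w u').mp h), hadj⟩, rfl⟩
  have hin : ∀ v, p v = w → ∃ u, N.H.Adj v u ∧ p u = w := by
    intro v hv
    by_contra hc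
    push Not at hc
    have h2 : dg N.H v ≤ cnt (fun u => N.H.Adj v u ∧ p u ≠ w) :=
      cnt_le_of_imp fun u hu => ⟨hu, hc u hu⟩
    have := hout v hv
    have := hH v
    omega
  have key : ∀ v, p v = w →
      528 < cnt (fun u => p u = w ∧ N.t1 u = !(N.t1 v) ∧ ∀ u', G.Adj u u' → p u' = w) := by
    intro v hv
    have h2 : dg N.H v ≤ cnt (fun u => (N.H.Adj v u ∧ p u ≠ w) ∨
        ((p u = w ∧ ∃ u', G.Adj u u' ∧ p u' ≠ w) ∨
        (p u = w ∧ N.t1 u = !(N.t1 v) ∧ ∀ u', G.Adj u u' → p u' = w))) := by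
      refine cnt_le_of_imp fun u hu => ?_
      by_cases h3 : p u = w
      · right
        by_cases h4 : ∃ u', G.Adj u u' ∧ p u' ≠ w
        · exact Or.inl ⟨h3, h4⟩
        · right
          push Not at h4
          refine ⟨h3, ?_, h4⟩
          have h5 : N.t1 v ≠ N.t1 u := hu.2
          cases hv1 : N.t1 v <;> cases hu1 : N.t1 u <;> simp_all
      · exact Or.inl ⟨hu, h3⟩
    have h3 := cnt_or (fun u => N.H.Adj v u ∧ p u ≠ w) (fun u =>
        ((p u = w ∧ ∃ u', G.Adj u u' ∧ p u' ≠ w) ∨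
        (p u = w ∧ N.t1 u = !(N.t1 v) ∧ ∀ u', G.Adj u u' → p u' = w)))
    have h4 := cnt_or (fun u => p u = w ∧ ∃ u', G.Adj u u' ∧ p u' ≠ w)
      (fun u => p u = w ∧ N.t1 u = !(N.t1 v) ∧ ∀ u', G.Adj u u' → p u' = w)
    have := hout v hv
    have := hH v
    omega
  obtain ⟨v', hv'a, hv'⟩ := hin w hpw
  have k1 := key w hpw
  have k2 := key v' hv'
  have hne : N.t1 w ≠ N.t1 v' := hv'a.2
  cases hw1 : N.t1 w <;> cases hv1 : N.t1 v'
  · exact absurd (hw1.trans hv1.symm) hne
  · rw [hw1] at k1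
    rw [hv1] at k2
    exact ⟨k1, k2⟩
  · rw [hw1] at k1
    rw [hv1] at k2
    exact ⟨k2, k1⟩
  · exact absurd (hw1.trans hv1.symm) hne

end Pool.Agent.MDG.H34
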